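import Pool.Agent.L7h32.OS.Stm

/-!
# Project OS, part CLS
-/

set_option autoImplicit false

namespace Pool.Agent.L7h66.OS

open Pool.Agent.L7h32.OS Polynomial

/-- there are `x_0 < z_0 < x_1 < ... < z_{n-1} < x_n = x` with `g x_i ≤ 0 < g z_i` -/
inductive Ch (g : Polynomial ℝ) : ℕ → ℝ → Prop
  | zero (x : ℝ) : g.eval x ≤ 0 → Ch g 0 x
  | succ (n : ℕ) (x z y : ℝ) : Ch g n x → x < z → z < y → 0 < g.eval z → g.eval y ≤ 0 →
      Ch g (n + 1) y

lemma Ch.le {g : Polynomial ℝ} {n : ℕ} {x : ℝ} (h : Ch g n x) : g.eval x ≤ 0 := by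
  cases h with
  | zero _ h => exact h
  | succ _ _ _ _ _ _ _ _ h => exact h

lemma ivt_up {g : Polynomial ℝ} {x z ε : ℝ} (hxz : x < z) (h1 : g.eval x < ε) (h2 : ε < g.eval z) :
    ∃ r, x < r ∧ r < z ∧ g.eval r = ε := by
  obtain ⟨r, hr, h⟩ := intermediate_value_Ioo hxz.le (f := fun t => g.eval t)
    g.continuous.continuousOn ⟨h1, h2⟩
  exact ⟨r, hr.1, hr.2, h⟩

lemma ivt_down {g : Polynomial ℝ} {z y ε : ℝ} (hzy : z < y) (h1 : ε < g.eval z)
    (h2 : g.eval y < ε) : ∃ r, z < r ∧ r < y ∧ g.eval r = ε := by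
  obtain ⟨r, hr, h⟩ := intermediate_value_Ioo' hzy.le (f := fun t => g.eval t)
    g.continuous.continuousOn ⟨h2, h1⟩
  exact ⟨r, hr.1, hr.2, h⟩

lemma Ch.roots {g : Polynomial ℝ} {n : ℕ} {x : ℝ} (h : Ch g n x) :
    ∃ ε₀ : ℝ, 0 < ε₀ ∧ ∀ ε : ℝ, 0 < ε → ε < ε₀ →
      ∃ s : Finset ℝ, s.card = 2 * n ∧ ∀ r ∈ s, r < x ∧ g.eval r = ε := by
  classical
  induction h with
  | zero x _ => exact ⟨1, one_pos, fun ε _ _ => ⟨∅, rfl, fun r hr => by simp at hr⟩⟩
  | succ n x z y hc hxz hzy hz hy ih =>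
    obtain ⟨ε₀, h0, h⟩ := ih
    refine ⟨min ε₀ (g.eval z), lt_min h0 hz, fun ε hε hε' => ?_⟩
    obtain ⟨s, hs, hs'⟩ := h ε hε (hε'.trans_le (min_le_left _ _))
    have hεz : ε < g.eval z := hε'.trans_le (min_le_right _ _)
    obtain ⟨r1, a1, a2, a3⟩ := ivt_up hxz (hc.le.trans_lt hε) hεz
    obtain ⟨r2, b1, b2, b3⟩ := ivt_down hzy hεz (hy.trans_lt hε)
    have h1 : r1 ∉ s := fun hm => by
      have := (hs' r1 hm).1
      linarith
    have h2 : r2 ∉ insert r1 s := fun hm => by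
      rcases Finset.mem_insert.1 hm with h3 | h3
      · linarith
      · have := (hs' r2 h3).1
        linarith
    refine ⟨insert r2 (insert r1 s), ?_, fun r hr => ?_⟩
    · rw [Finset.card_insert_of_notMem h2, Finset.card_insert_of_notMem h1, hs]
      ring
    · rcases Finset.mem_insert.1 hr with rfl | hr
      · exact ⟨b2, b3⟩
      · rcases Finset.mem_insert.1 hr with rfl | hr
        · exact ⟨by linarith, a3⟩
        · obtain ⟨h3, h4⟩ := hs' r hr
          exact ⟨by linarith, h4⟩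

lemma Ch.bound {g : Polynomial ℝ} (hg : g.natDegree ≤ 7) {n : ℕ} {x : ℝ} (h : Ch g n x) :
    2 * n ≤ 7 := by
  classical
  obtain ⟨ε₀, h0, h1⟩ := h.roots
  obtain ⟨s, hs, hs'⟩ := h1 (ε₀ / 2) (by positivity) (by linarith)
  set p : Polynomial ℝ := g - C (ε₀ / 2) with hp
  have hp0 : p ≠ 0 := by
    intro e
    have e1 : p.eval x = 0 := by rw [e, eval_zero]
    rw [hp, eval_sub, eval_C] at e1
    have := h.le
    linarith
  have hsub : s ⊆ p.roots.toFinset := by
    intro r hr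
    rw [Multiset.mem_toFinset, mem_roots hp0, IsRoot.def, hp, eval_sub, eval_C, (hs' r hr).2,
      sub_self]
  have hdeg : p.natDegree ≤ 7 := by
    rw [hp]
    exact (natDegree_sub_le _ _).trans (max_le hg (by rw [natDegree_C]; norm_num))
  calc 2 * n = s.card := hs.symm
    _ ≤ p.roots.toFinset.card := Finset.card_le_card hsub
    _ ≤ Multiset.card p.roots := Multiset.toFinset_card_le _
    _ ≤ p.natDegree := card_roots' p
    _ ≤ 7 := hdeg

theorem s_CLS : S_CLS := by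
  classical
  intro g _ hdeg
  refine ⟨fun x => ⟨Nat.findGreatest (fun n => Ch g n x) 3,
    Nat.lt_succ_of_le (Nat.findGreatest_le 3)⟩, ?_⟩
  have key : ∀ x y t : ℝ, g.eval x ≤ 0 → g.eval y ≤ 0 → x < t → t < y → 0 < g.eval t →
      Nat.findGreatest (fun n => Ch g n x) 3 < Nat.findGreatest (fun n => Ch g n y) 3 := by
    intro x y t hx hy h1 h2 ht
    have h3 : Ch g (Nat.findGreatest (fun n => Ch g n x) 3) x :=
      Nat.findGreatest_spec (P := fun n => Ch g n x) (Nat.zero_le 3) (Ch.zero x hx)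
    have h4 := Ch.succ _ x t y h3 h1 h2 ht hy
    have h5 := h4.bound hdeg
    exact Nat.le_findGreatest (P := fun n => Ch g n y) (by omega) h4
  intro x y hx hy hc t ht
  by_contra hgt
  rw [not_le] at hgt
  have hc' : Nat.findGreatest (fun n => Ch g n x) 3 = Nat.findGreatest (fun n => Ch g n y) 3 :=
    congrArg Fin.val hc
  have htx : t ≠ x := fun e => by rw [e] at hgt; linarith
  have hty : t ≠ y := fun e => by rw [e] at hgt; linarith
  rw [Set.mem_uIcc] at ht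
  rcases ht with ⟨h1, h2⟩ | ⟨h1, h2⟩
  · have := key x y t hx hy (lt_of_le_of_ne h1 htx.symm) (lt_of_le_of_ne h2 hty) hgt
    omega
  · have := key y x t hy hx (lt_of_le_of_ne h1 hty.symm) (lt_of_le_of_ne h2 htx) hgt
    omega

end Pool.Agent.L7h66.OS
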