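import Pool.Agent.L7h32.OS.Stm2
import Pool.Agent.L7h66.OS.Cls

/-!
# Project OS, part CL3
-/

set_option autoImplicit false

namespace Pool.Agent.L7h66.OS

open Pool.Agent.L7h32.OS Polynomial Filter

lemma Ch.bound6 {g : Polynomial ℝ} (hg : g.natDegree ≤ 6) (hl : 0 < g.leadingCoeff) {n : ℕ}
    {x : ℝ} (h : Ch g n x) : 2 * n + 1 ≤ 6 := by
  classical
  obtain ⟨ε₀, h0, h1⟩ := h.roots
  obtain ⟨s, hs, hs'⟩ := h1 (ε₀ / 2) (by positivity) (by linarith)
  have hdeg0 : 0 < g.degree := by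
    by_contra hd
    have e := Polynomial.eq_C_of_degree_le_zero (not_lt.1 hd)
    have h2 := h.le
    rw [e, eval_C] at h2
    rw [e, leadingCoeff_C] at hl
    linarith
  have ht := Polynomial.tendsto_atTop_of_leadingCoeff_nonneg g hdeg0 hl.le
  obtain ⟨y, hy1, hy2⟩ := ((ht.eventually_gt_atTop (ε₀ / 2)).and (eventually_gt_atTop x)).exists
  have hx0 : g.eval x < ε₀ / 2 := h.le.trans_lt (by positivity)
  obtain ⟨r, r1, r2, r3⟩ := ivt_up hy2 hx0 hy1
  have hrs : r ∉ s := fun hm => by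
    have := (hs' r hm).1
    linarith
  set p : Polynomial ℝ := g - C (ε₀ / 2) with hp
  have hp0 : p ≠ 0 := by
    intro e
    have e1 : p.eval x = 0 := by rw [e, eval_zero]
    rw [hp, eval_sub, eval_C] at e1
    have := h.le
    linarith
  have hsub : insert r s ⊆ p.roots.toFinset := by
    intro q hq
    have hq' : g.eval q = ε₀ / 2 := by
      rcases Finset.mem_insert.1 hq with rfl | hq
      · exact r3
      · exact (hs' q hq).2
    rw [Multiset.mem_toFinset, mem_roots hp0, IsRoot.def, hp, eval_sub, eval_C, hq', sub_self]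
  have hdeg : p.natDegree ≤ 6 := by
    rw [hp]
    exact (natDegree_sub_le _ _).trans (max_le hg (by rw [natDegree_C]; norm_num))
  calc 2 * n + 1 = (insert r s).card := by rw [Finset.card_insert_of_notMem hrs, hs]
    _ ≤ p.roots.toFinset.card := Finset.card_le_card hsub
    _ ≤ Multiset.card p.roots := Multiset.toFinset_card_le _
    _ ≤ p.natDegree := card_roots' p
    _ ≤ 6 := hdeg

theorem cls3 (g : Polynomial ℝ) (hdeg : g.natDegree ≤ 6) (hl : 0 < g.leadingCoeff) :
    ∃ c : ℝ → Fin 3, ∀ x y : ℝ, g.eval x ≤ 0 → g.eval y ≤ 0 → c x = c y →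
      ∀ t ∈ Set.uIcc x y, g.eval t ≤ 0 := by
  classical
  refine ⟨fun x => ⟨Nat.findGreatest (fun n => Ch g n x) 2,
    Nat.lt_succ_of_le (Nat.findGreatest_le 2)⟩, ?_⟩
  have key : ∀ x y t : ℝ, g.eval x ≤ 0 → g.eval y ≤ 0 → x < t → t < y → 0 < g.eval t →
      Nat.findGreatest (fun n => Ch g n x) 2 < Nat.findGreatest (fun n => Ch g n y) 2 := by
    intro x y t hx hy h1 h2 ht
    have h3 : Ch g (Nat.findGreatest (fun n => Ch g n x) 2) x :=
      Nat.findGreatest_spec (P := fun n => Ch g n x) (Nat.zero_le 2) (Ch.zero x hx)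
    have h4 := Ch.succ _ x t y h3 h1 h2 ht hy
    have h5 := h4.bound6 hdeg hl
    exact Nat.le_findGreatest (P := fun n => Ch g n y) (by omega) h4
  intro x y hx hy hc t ht
  by_contra hgt
  rw [not_le] at hgt
  have hc' : Nat.findGreatest (fun n => Ch g n x) 2 = Nat.findGreatest (fun n => Ch g n y) 2 :=
    congrArg Fin.val hc
  have htx : t ≠ x := fun e => by rw [e] at hgt; linarith
  have hty : t ≠ y := fun e => by rw [e] at hgt; linarith
  rw [Set.mem_uIcc] at ht
  rcases ht with ⟨h1, h2⟩ | ⟨h1, h2⟩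
  · have := key x y t hx hy (lt_of_le_of_ne h1 htx.symm) (lt_of_le_of_ne h2 hty) hgt
    omega
  · have := key y x t hy hx (lt_of_le_of_ne h1 hty.symm) (lt_of_le_of_ne h2 htx) hgt
    omega

theorem s_CL3 : S_CL3 := by
  intro g hg hdeg
  have hl : g.leadingCoeff ≠ 0 := leadingCoeff_ne_zero.2 hg
  rcases lt_or_gt_of_ne hl with h | h
  · obtain ⟨c, hc⟩ := cls3 (-g) (by rw [natDegree_neg]; exact hdeg)
      (by rw [leadingCoeff_neg]; linarith)
    refine ⟨-1, c, Or.inr rfl, fun x y hx hy hxy t ht => ?_⟩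
    have h1 := hc x y (by rw [eval_neg]; linarith) (by rw [eval_neg]; linarith) hxy t ht
    rw [eval_neg] at h1
    linarith
  · obtain ⟨c, hc⟩ := cls3 g hdeg h
    refine ⟨1, c, Or.inl rfl, fun x y hx hy hxy t ht => ?_⟩
    have h1 := hc x y (by linarith) (by linarith) hxy t ht
    linarith

end Pool.Agent.L7h66.OS
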